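import Mathlib
import Pool.Agent.X217.FEProd

/-!
# An M-divisibility minimal ultrafilter that is not minimal for finite embeddability (MP_b27926_lc)
-/

namespace Pool.Agent.Results.MP_b27926_lc.MMinNotFEMin

open Pool.Agent.X217.FEProd

/-- Minimality (above the principal ultrafilter `1`) with respect to a relation `ρ`. -/
def RhoMinimal (ρ : Ultrafilter ℕ+ → Ultrafilter ℕ+ → Prop) (F : Ultrafilter ℕ+) : Prop :=
  F ≠ pure 1 ∧ ∀ G, ρ G F → G = pure 1 ∨ (ρ G F ∧ ρ F G)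

/-- There is an ultrafilter `F` that is `∣_M`-minimal but not `≤_fe`-minimal: some `G ≠ 1` has
`G ≤_fe F` and not `F ≤_fe G`. -/
theorem result : ∃ F : Ultrafilter ℕ+, RhoMinimal MDiv F ∧ ¬ RhoMinimal FE F ∧
    ∃ G : Ultrafilter ℕ+, G ≠ pure 1 ∧ FE G F ∧ ¬ FE F G := by
  refine ⟨GG, ⟨GG_ne_one, fun G hG => ?_⟩, fun h => ?_, FF, FF_ne_one, FF_FE, not_GG_FE⟩
  · rcases mdiv_GG hG with h | h
    · exact Or.inl h
    · right
      subst h
      exact ⟨hG, hG⟩
  · rcases h.2 FF FF_FE with h1 | h1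
    · exact FF_ne_one h1
    · exact not_GG_FE h1.2

end Pool.Agent.Results.MP_b27926_lc.MMinNotFEMin
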